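import Mathlib
import Pool.Agent.Y164.NZ.Stm2

/-!
Combination of finitely many primes by the Chinese remainder theorem.
-/

set_option autoImplicit false

open Polynomial

namespace Pool.Agent.Y188.NZ

/-- Monic polynomials of degree `m` over a finite ring. -/
theorem card_monic (B : Type) [CommRing B] [Nontrivial B] [Finite B] (m : ℕ) :
    Nat.card {p : B[X] // p.Monic ∧ p.natDegree = m} = Nat.card B ^ m ∧
      Finite {p : B[X] // p.Monic ∧ p.natDegree = m} := by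
  have e : {p : B[X] // p.Monic ∧ p.natDegree = m} ≃ (Fin m → B) :=
    (monicEquivDegreeLT m).trans (degreeLTEquiv B m).toEquiv
  refine ⟨?_, Finite.of_equiv _ e.symm⟩
  rw [Nat.card_congr e, Nat.card_fun, Nat.card_fin]

/-- The number of monic polynomials in a set and outside it. -/
theorem card_compl (B : Type) [CommRing B] [Nontrivial B] [Finite B] (m : ℕ) (S : Set B[X]) :
    ({E : B[X] | E.Monic ∧ E.natDegree = m ∧ E ∈ S}).ncard +
      Nat.card {E : B[X] // E.Monic ∧ E.natDegree = m ∧ E ∉ S} = Nat.card B ^ m ∧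
    Finite {E : B[X] // E.Monic ∧ E.natDegree = m ∧ E ∉ S} := by
  obtain ⟨h1, h2⟩ := card_monic B m
  have hfin : ({E : B[X] | E.Monic ∧ E.natDegree = m}).Finite := h2
  have h3 := Set.ncard_inter_add_ncard_sdiff_eq_ncard {E : B[X] | E.Monic ∧ E.natDegree = m} S hfin
  have e1 : {E : B[X] | E.Monic ∧ E.natDegree = m} ∩ S =
      {E : B[X] | E.Monic ∧ E.natDegree = m ∧ E ∈ S} := by
    ext E
    simp only [Set.mem_inter_iff, Set.mem_ofPred_eq, and_assoc]
  have e2 : {E : B[X] | E.Monic ∧ E.natDegree = m} \ S =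
      {E : B[X] | E.Monic ∧ E.natDegree = m ∧ E ∉ S} := by
    ext E
    simp only [Set.mem_sdiff, Set.mem_ofPred_eq, and_assoc]
  rw [e1, e2] at h3
  have h4 : ({E : B[X] | E.Monic ∧ E.natDegree = m}).ncard = Nat.card B ^ m := by
    rw [← h1]
    exact (Nat.card_coe_set_eq _).symm
  refine ⟨?_, ?_⟩
  · rw [← h4, ← h3]
    congr 1
  · have h5 : ({E : B[X] | E.Monic ∧ E.natDegree = m ∧ E ∉ S}).Finite :=
      hfin.subset fun E hE => ⟨hE.1, hE.2.1⟩
    exact h5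

theorem t : Pool.Agent.Y164.NZ.S_CNT := by
  intro A _ r hr I hI hne hfin m G c hc0 hc1 hG
  have hI' : ∀ i, Nontrivial (A ⧸ I i) := fun i => Ideal.Quotient.nontrivial_iff.2 (hI i).ne_top
  have hcop : Pairwise (Function.onFun IsCoprime I) := by
    intro i j hij
    exact Ideal.isCoprime_iff_sup_eq.2 ((hI i).coprime_of_ne (hI j) (hne i j hij))
  have hbij : Function.Bijective (Ideal.quotientInfToPiQuotient I) :=
    ⟨Ideal.quotientInfToPiQuotient_inj I, Ideal.quotientInfToPiQuotient_surj hcop⟩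
  set i0 : Fin r := ⟨0, hr⟩ with hi0
  have hBf : Finite (A ⧸ (⨅ i, I i)) := Finite.of_injective _ hbij.1
  have hBn : Nontrivial (A ⧸ (⨅ i, I i)) := by
    exact ((Pi.evalRingHom (fun i => A ⧸ I i) i0).comp
      (Ideal.quotientInfToPiQuotient I)).domain_nontrivial
  have hcard : Nat.card (A ⧸ (⨅ i, I i)) = ∏ i, Nat.card (A ⧸ I i) := by
    rw [Nat.card_congr (Equiv.ofBijective _ hbij), Nat.card_pi]
  set M : Ideal A := ⨅ i, I i with hM
  let f : ∀ i, (A ⧸ M) →+* (A ⧸ I i) := fun i =>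
    (Pi.evalRingHom (fun i => A ⧸ I i) i).comp (Ideal.quotientInfToPiQuotient I)
  have hf : ∀ i, (f i).comp (Ideal.Quotient.mk M) = Ideal.Quotient.mk (I i) := fun i => rfl
  set S : Set (A ⧸ M)[X] := {E | ∃ i, ∀ D : A[X],
    D.map (Ideal.Quotient.mk M) = E → D.map (Ideal.Quotient.mk (I i)) ∈ G i} with hS
  have hnot : ∀ E : (A ⧸ M)[X], E ∉ S → ∀ i, E.map (f i) ∉ G i := by
    intro E hE i hEi
    apply hE
    refine ⟨i, fun D hD => ?_⟩
    rw [← hf i, ← Polynomial.map_map, hD]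
    exact hEi
  obtain ⟨hc, hcf⟩ := card_compl (A ⧸ M) m S
  have hci := fun i => card_compl (A ⧸ I i) m (G i)
  let F : {E : (A ⧸ M)[X] // E.Monic ∧ E.natDegree = m ∧ E ∉ S} →
      ∀ i, {E : (A ⧸ I i)[X] // E.Monic ∧ E.natDegree = m ∧ E ∉ G i} := fun E i =>
    ⟨E.1.map (f i), E.2.1.map _, by rw [E.2.1.natDegree_map, E.2.2.1], hnot E.1 E.2.2.2 i⟩
  have hF : Function.Injective F := by
    intro E E' h
    refine Subtype.ext (Polynomial.ext fun j => hbij.1 ?_)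
    funext i
    have h1 : E.1.map (f i) = E'.1.map (f i) := congrArg Subtype.val (congrFun h i)
    have h2 : (E.1.map (f i)).coeff j = (E'.1.map (f i)).coeff j := by rw [h1]
    rw [coeff_map, coeff_map] at h2
    exact h2
  have := fun i => (hci i).2
  have h1 : Nat.card {E : (A ⧸ M)[X] // E.Monic ∧ E.natDegree = m ∧ E ∉ S} ≤
      ∏ i, Nat.card {E : (A ⧸ I i)[X] // E.Monic ∧ E.natDegree = m ∧ E ∉ G i} := by
    rw [← Nat.card_pi]
    exact Nat.card_le_card_of_injective F hF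
  have h2 : ∀ i, ((Nat.card {E : (A ⧸ I i)[X] // E.Monic ∧ E.natDegree = m ∧ E ∉ G i} : ℕ) : ℝ) ≤
      (1 - c) * (Nat.card (A ⧸ I i) : ℝ) ^ m := by
    intro i
    have h3 : ((({E : (A ⧸ I i)[X] | E.Monic ∧ E.natDegree = m ∧ E ∈ G i}).ncard : ℕ) : ℝ) +
        ((Nat.card {E : (A ⧸ I i)[X] // E.Monic ∧ E.natDegree = m ∧ E ∉ G i} : ℕ) : ℝ) =
        (Nat.card (A ⧸ I i) : ℝ) ^ m := by
      exact_mod_cast (hci i).1
    have h4 := hG i
    linarith
  have h3 : ((Nat.card {E : (A ⧸ M)[X] // E.Monic ∧ E.natDegree = m ∧ E ∉ S} : ℕ) : ℝ) ≤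
      (1 - c) ^ r * (Nat.card (A ⧸ M) : ℝ) ^ m := by
    calc ((Nat.card {E : (A ⧸ M)[X] // E.Monic ∧ E.natDegree = m ∧ E ∉ S} : ℕ) : ℝ) ≤
          ∏ i, ((Nat.card {E : (A ⧸ I i)[X] // E.Monic ∧ E.natDegree = m ∧ E ∉ G i} : ℕ) : ℝ) := by
          exact_mod_cast h1
      _ ≤ ∏ i, ((1 - c) * (Nat.card (A ⧸ I i) : ℝ) ^ m) :=
          Finset.prod_le_prod (fun i _ => Nat.cast_nonneg _) fun i _ => h2 i
      _ = (1 - c) ^ r * (Nat.card (A ⧸ M) : ℝ) ^ m := by
          rw [Finset.prod_mul_distrib, Finset.prod_const, Finset.card_univ, Fintype.card_fin,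
            Finset.prod_pow, hcard]
          push_cast
          rfl
  have h4 : ((({E : (A ⧸ M)[X] | E.Monic ∧ E.natDegree = m ∧ E ∈ S}).ncard : ℕ) : ℝ) +
      ((Nat.card {E : (A ⧸ M)[X] // E.Monic ∧ E.natDegree = m ∧ E ∉ S} : ℕ) : ℝ) =
      (Nat.card (A ⧸ M) : ℝ) ^ m := by
    exact_mod_cast hc
  have h5 : (1 - (1 - c) ^ r) * (Nat.card (A ⧸ M) : ℝ) ^ m ≤
      ((({E : (A ⧸ M)[X] | E.Monic ∧ E.natDegree = m ∧ E ∈ S}).ncard : ℕ) : ℝ) := by
    linarith
  exact h5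

end Pool.Agent.Y188.NZ
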